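import Pool.Agent.Lib.MP_6bfe6b_gt.OnePreimages

open CategoryTheory

universe u

open Pool.Agent.MP_6bfe6b_gt in
/-- There is a mec functor which preserves finite 1-preimages but does not preserve
1-preimages. -/
theorem Pool.Agent.Results.MP_6bfe6b_gt.OnePreimagesCounterexample.result :
    ∃ F : CompHaus.{u} ⥤ CompHaus.{u},
      Mec F ∧ PreservesFiniteOnePreimages F ∧ ¬ PreservesOnePreimages F :=
  ⟨F, ⟨F_monomorphic, F_epimorphic, F_continuous⟩, F_finiteOnePreimages, F_not_onePreimages⟩
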