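import Pool.Agent.Lib.MP_6bfe6b_gt.Cube

open CategoryTheory

universe u


open Pool.Agent.MP_6bfe6b_gt in
/-- Every monomorphic (in particular every mec) functor that preserves finite preimages preserves
preimages. -/
theorem Pool.Agent.Results.MP_6bfe6b_gt.PreimagesFromFinite.result
    (F : CompHaus.{u} ⥤ CompHaus.{u}) (hF : Monomorphic F) (h : PreservesFinitePreimages F) :
    PreservesPreimages F := by
  intro X' Y' X Y f' f pX pY hf' hf hsq
  have hcomm : F.map pX ≫ F.map f = F.map f' ≫ F.map pY := by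
    rw [← F.map_comp, ← F.map_comp, hsq.comm]
  refine ⟨hcomm, fun b => Set.Subset.antisymm ?_ ?_⟩
  · rintro _ ⟨a, ha, rfl⟩
    have h1 : F.map f (F.map pX a) = F.map pY (F.map f' a) := ConcreteCategory.congr_hom hcomm a
    rw [Set.mem_preimage, Set.mem_singleton_iff, ← h1, show F.map pX a = b from ha]
  · intro c hc
    obtain ⟨Q, g, z, hg⟩ := exists_map_to_cube f
    let P : CompHaus.{u} := CompHaus.of PUnit
    let t : X ⟶ P := CompHausLike.ofHom _ ⟨fun _ => PUnit.unit, continuous_const⟩
    let t' : X' ⟶ P := CompHausLike.ofHom _ ⟨fun _ => PUnit.unit, continuous_const⟩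
    let i : P ⟶ Q := CompHausLike.ofHom _ ⟨fun _ => z, continuous_const⟩
    have hfg : f ≫ g = t ≫ i := by
      ext x
      exact (hg (f x)).2 ⟨x, rfl⟩
    have hmem : ∀ y' : Y', (pY ≫ g) y' = z ↔ ∃ x' : X', f' x' = y' := by
      intro y'
      rw [show (pY ≫ g) y' = g (pY y') from rfl, hg]
      constructor
      · rintro ⟨x, hx⟩
        have h2 : y' ∈ pY ⁻¹' {f x} := hx.symm
        rw [← hsq.image_fiber x] at h2
        obtain ⟨x', -, hx'⟩ := h2
        exact ⟨x', hx'⟩
      · rintro ⟨x', rfl⟩
        exact ⟨pX x', ConcreteCategory.congr_hom hsq.comm x'⟩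
    have hsq' : Bicommutative f' i t' (pY ≫ g) := by
      refine ⟨?_, fun x => ?_⟩
      · ext x'
        exact ((hmem (f' x')).2 ⟨x', rfl⟩).symm
      · ext y'
        constructor
        · rintro ⟨x', -, rfl⟩
          exact (hmem (f' x')).2 ⟨x', rfl⟩
        · intro hy'
          obtain ⟨x', hx'⟩ := (hmem y').1 hy'
          exact ⟨x', rfl, hx'⟩
    have hi : Function.Injective i := fun _ _ _ => rfl
    have hfin : Finite P := inferInstanceAs (Finite PUnit)
    have h3 := (h f' i t' (pY ≫ g) hfin hf' hi hsq').image_fiber (F.map t b)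
    have h4 : c ∈ F.map (pY ≫ g) ⁻¹' {F.map i (F.map t b)} := by
      have hc' : F.map pY c = F.map f b := hc
      have h5 : F.map (f ≫ g) b = F.map (t ≫ i) b := by rw [hfg]
      rw [F.map_comp, F.map_comp] at h5
      rw [Set.mem_preimage, Set.mem_singleton_iff, F.map_comp]
      exact (congrArg (F.map g) hc').trans h5
    rw [← h3] at h4
    obtain ⟨a, -, rfl⟩ := h4
    refine ⟨a, ?_, rfl⟩
    apply hF f hf
    have h6 : F.map f (F.map pX a) = F.map pY (F.map f' a) := ConcreteCategory.congr_hom hcomm a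
    exact h6.trans hc
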